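import Pool.Agent.PB86.Final

/-!
# Pólya's Neumann inequality for balls, in every dimension `n ≥ 3`

Let `n ≥ 3`. Every ball of `ℝⁿ`, and every open set finitely many congruent copies of which fill a
ball, satisfies `μ_j ≤ (2π)² (j / (ω_n |Ω|))^{2/n}` for all `j`, with strict inequality for `j ≥ 1`.
(For a ball itself take `m = 1`, `A 0 = id`, `b 0 = 0`.)
-/

set_option autoImplicit false

open MeasureTheory
open Pool.Agent.H51.Neumann Pool.Agent.H85.Spectral

namespace Pool.Agent.Results.MP_022645_an.BallsAllDimensions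

/-- **Pólya's conjecture for the Neumann eigenvalues of balls** (and of the open sets finitely many
congruent copies of which fill a ball up to a null set), in every dimension `n ≥ 3`. -/
theorem result {n : ℕ} (hn : 3 ≤ n) (Ω : Set (E n)) (hΩ : IsOpen Ω) (μ : ℕ → ℝ)
    (hμ : IsNeumannSpectrum Ω μ) (m : ℕ) (A : Fin m → (E n ≃ₗᵢ[ℝ] E n)) (b : Fin m → E n)
    (c₀ : E n) (R : ℝ) (hR : 0 < R)
    (hdisj : Pairwise (Function.onFun Disjoint fun k => (fun x => A k x + b k) '' Ω))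
    (hcov : Metric.ball c₀ R =ᵐ[volume] ⋃ k, (fun x => A k x + b k) '' Ω) :
    (∀ j : ℕ, μ j ≤ weyl Ω j) ∧ ∀ j : ℕ, 1 ≤ j → μ j < weyl Ω j :=
  Pool.Agent.PB86.polya_packed hn hΩ hμ A b hR hdisj hcov

/-- the case of a ball -/
theorem ball {n : ℕ} (hn : 3 ≤ n) (c₀ : E n) (R : ℝ) (hR : 0 < R) (μ : ℕ → ℝ)
    (hμ : IsNeumannSpectrum (Metric.ball c₀ R) μ) :
    (∀ j : ℕ, μ j ≤ weyl (Metric.ball c₀ R) j) ∧
      ∀ j : ℕ, 1 ≤ j → μ j < weyl (Metric.ball c₀ R) j := by
  refine result hn (Metric.ball c₀ R) Metric.isOpen_ball μ hμ 1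
    (fun _ => LinearIsometryEquiv.refl ℝ (E n)) (fun _ => 0) c₀ R hR ?_ ?_
  · intro a b hab
    exact absurd (Subsingleton.elim a b) hab
  · simp only [LinearIsometryEquiv.coe_refl, id_eq, add_zero, Set.image_id', Set.iUnion_const]
    exact Filter.EventuallyEq.refl _ _

end Pool.Agent.Results.MP_022645_an.BallsAllDimensions
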