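import Pool.Agent.H51.Neumann.HighDim

set_option autoImplicit false

open MeasureTheory Filter Topology Set
open Pool.Agent.H51.Neumann
open scoped RealInnerProductSpace ContDiff

namespace Pool.Agent.Results.MP_022645_an.HighDimension

/-- The Weyl term `W_j(Ω) = (2π)² (j/(ω_n |Ω|))^{2/n}`. -/
noncomputable def weyl {n : ℕ} (Ω : Set (E n)) (j : ℕ) : ℝ :=
  (2 * Real.pi) ^ 2 *
    ((j : ℝ) / (volume.real (Metric.ball (0 : E n) 1) * volume.real Ω)) ^ (2 / (n : ℝ))

/-- `X(n,j) = n j^{2/n} / (2 e²)`. -/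
noncomputable def X (n j : ℕ) : ℝ := n * (j : ℝ) ^ (2 / (n : ℝ)) / (2 * Real.exp 1 ^ 2)

theorem weyl_ge {n : ℕ} (hn : 0 < n) (Ω : Set (E n)) (hV : 0 < volume.real Ω) (j : ℕ) :
    2 * Real.pi * n / Real.exp 1 * (j : ℝ) ^ (2 / (n : ℝ)) / volume.real Ω ^ (2 / (n : ℝ))
      ≤ weyl Ω j := by
  have hn' : (0 : ℝ) < n := by exact_mod_cast hn
  have hω : 0 < volume.real (Metric.ball (0 : E n) 1) := by
    rw [Measure.real, ENNReal.toReal_pos_iff]
    exact ⟨Metric.measure_ball_pos _ _ one_pos, measure_ball_lt_top⟩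
  have hωle := ball_volume_le hn
  have h1 : volume.real (Metric.ball (0 : E n) 1) ^ (2 / (n : ℝ))
      ≤ 2 * Real.pi * Real.exp 1 / n := by
    have := Real.rpow_le_rpow hω.le hωle (by positivity : 0 ≤ 2 / (n : ℝ))
    rw [← Real.rpow_mul (by positivity)] at this
    have e : (n : ℝ) / 2 * (2 / n) = 1 := by field_simp
    rwa [e, Real.rpow_one] at this
  have hωp : 0 < volume.real (Metric.ball (0 : E n) 1) ^ (2 / (n : ℝ)) :=
    Real.rpow_pos_of_pos hω _
  have hVp : 0 < volume.real Ω ^ (2 / (n : ℝ)) := Real.rpow_pos_of_pos hV _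
  rw [weyl, Real.div_rpow (by positivity) (by positivity), Real.mul_rpow hω.le hV.le,
    ← mul_div_assoc, ← div_div, div_le_div_iff_of_pos_right hVp, le_div_iff₀ hωp]
  have hj : 0 ≤ (j : ℝ) ^ (2 / (n : ℝ)) := by positivity
  calc 2 * Real.pi * n / Real.exp 1 * (j : ℝ) ^ (2 / (n : ℝ))
        * volume.real (Metric.ball (0 : E n) 1) ^ (2 / (n : ℝ))
      ≤ 2 * Real.pi * n / Real.exp 1 * (j : ℝ) ^ (2 / (n : ℝ))
        * (2 * Real.pi * Real.exp 1 / n) := by gcongr
    _ = _ := by field_simp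

theorem criterion {n : ℕ} (hn : 0 < n) (Ω : Set (E n)) (hΩ : IsOpen Ω) (hne : Ω.Nonempty)
    (hb : Bornology.IsBounded Ω) (μ : ℕ → ℝ) (hμ : IsNeumannSpectrum Ω μ) (j : ℕ) (hj : 1 ≤ j)
    (h0 : 1 < X n j) (h1 : 1 + Real.log j / 2 + Real.log (X n j) ≤ X n j)
    (h2 : Real.log j / 2 + Real.log (X n j) ≤ n / 4) : μ j ≤ weyl Ω j := by
  have hn' : (0 : ℝ) < n := by exact_mod_cast hn
  have hj' : (1 : ℝ) ≤ j := by exact_mod_cast hj
  have hfin : volume Ω ≠ ⊤ := hb.measure_lt_top.ne
  have hV : 0 < volume.real Ω := by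
    rw [Measure.real, ENNReal.toReal_pos_iff]
    exact ⟨hΩ.measure_pos volume hne, hb.measure_lt_top⟩
  refine le_trans ?_ (weyl_ge hn Ω hV j)
  set V := volume.real Ω with hVdef
  set P := V ^ (2 / (n : ℝ)) with hP
  have hPp : 0 < P := Real.rpow_pos_of_pos hV _
  have hXp : 0 < X n j := by
    rw [X]; positivity
  set x := X n j with hx
  have hjp : 0 < (j : ℝ) ^ (2 / (n : ℝ)) := by positivity
  have hlogx : Real.log x ≤ x - 1 := Real.log_le_sub_one_of_pos hXp
  have hlogj : 0 ≤ Real.log j := Real.log_nonneg hj'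
  have hxe : 0 < Real.log j / 2 + Real.log x := by
    have := Real.log_pos h0
    linarith
  set τ := Real.log j / 2 + Real.log x with hτ
  set r := n / (2 * Real.pi * Real.exp 1) * P with hr
  have hrp : 0 < r := by positivity
  have hm := main_ineq hn hΩ.measurableSet hfin hV hμ j (r / (4 * τ)) (by positivity) (by
    rw [← hVdef, ← hP, ← hr]
    have : n * (r / (4 * τ)) = r * (n / (4 * τ)) := by ring
    rw [this]
    refine le_mul_of_one_le_right hrp.le ?_
    rw [one_le_div (by positivity)]; linarith)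
  rw [← hVdef, ← hP, ← hr] at hm
  have e1 : -r / (4 * (r / (4 * τ))) = -τ := by field_simp
  have e2 : Real.sqrt j * Real.exp (-τ) = 1 / x := by
    have : Real.sqrt j = Real.exp (Real.log j / 2) := by
      rw [Real.sqrt_eq_rpow, Real.rpow_def_of_pos (by positivity)]; congr 1; ring
    rw [this, ← Real.exp_add, hτ]
    have : Real.log j / 2 + -(Real.log j / 2 + Real.log x) = -Real.log x := by ring
    rw [this, Real.exp_neg, Real.exp_log hXp, one_div]
  rw [e1, e2] at hm
  have hx1 : 1 < x := by linarith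
  have hfac : 0 < 1 - 1 / x := by
    rw [sub_pos, div_lt_one hXp]; exact hx1
  have h3 : (μ j) ≤ n / (2 * (r / (4 * τ))) / (1 - 1 / x) := by
    rw [le_div_iff₀ hfac]; exact hm
  refine h3.trans ?_
  rw [div_le_iff₀ hfac]
  have e3 : (n : ℝ) / (2 * (r / (4 * τ))) = 4 * Real.pi * Real.exp 1 * τ / P := by
    rw [hr]; field_simp
    try ring
  have e4 : 2 * Real.pi * n / Real.exp 1 * (j : ℝ) ^ (2 / (n : ℝ)) / P
      = 4 * Real.pi * Real.exp 1 * x / P := by
    rw [hx, X]; field_simp; ring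
  rw [e3, e4]
  have e5 : 4 * Real.pi * Real.exp 1 * x / P * (1 - 1 / x)
      = 4 * Real.pi * Real.exp 1 * (x - 1) / P := by field_simp
  rw [e5]
  gcongr
  linarith

/-! ### Numerics -/

theorem log_three_le : Real.log 3 ≤ 1.0987 := by
  rw [Real.log_le_iff_le_exp (by norm_num)]
  refine le_trans ?_ (Real.sum_le_exp_of_nonneg (by norm_num) 10)
  norm_num [Finset.sum_range_succ, Nat.factorial]

theorem le_log_three : 1.0985 ≤ Real.log 3 := by
  rw [Real.le_log_iff_exp_le (by norm_num)]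
  have h1 : Real.exp 1.0985 = Real.exp 1 * Real.exp 0.0985 := by
    rw [← Real.exp_add]; norm_num
  have h2 := Real.exp_one_lt_d9
  have h3 : Real.exp 0.0985 ≤ 1.10362 := by
    refine (Real.exp_bound' (by norm_num) (by norm_num) (n := 4) (by norm_num)).trans ?_
    norm_num [Finset.sum_range_succ, Nat.factorial]
  rw [h1]
  calc Real.exp 1 * Real.exp 0.0985 ≤ 2.7182818286 * 1.10362 := by gcongr
    _ ≤ 3 := by norm_num

theorem log_eleven_le : Real.log (11 / 10) ≤ 0.09532 := by
  rw [Real.log_le_iff_le_exp (by norm_num)]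
  refine le_trans ?_ (Real.sum_le_exp_of_nonneg (by norm_num) 6)
  norm_num [Finset.sum_range_succ, Nat.factorial]

theorem le_log_eleven : 0.0953 ≤ Real.log (11 / 10) := by
  rw [Real.le_log_iff_exp_le (by norm_num)]
  refine (Real.exp_bound' (by norm_num) (by norm_num) (n := 5) (by norm_num)).trans ?_
  norm_num [Finset.sum_range_succ, Nat.factorial]

theorem log_const_le : Real.log 2.4493 ≤ 0.8959 := by
  rw [Real.log_le_iff_le_exp (by norm_num)]
  refine le_trans ?_ (Real.sum_le_exp_of_nonneg (by norm_num) 10)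
  norm_num [Finset.sum_range_succ, Nat.factorial]

theorem log_X {n j : ℕ} (hn : 0 < n) (hj : 1 ≤ j) :
    X n j = n * Real.exp (2 * Real.log j / n) / (2 * Real.exp 1 ^ 2) := by
  have hj' : (0 : ℝ) < j := by exact_mod_cast hj
  rw [X, Real.rpow_def_of_pos hj']
  congr 3; ring

/-- numerical part of the explicit range -/
theorem numerics {n j : ℕ} (hn : 34 ≤ n) (hj : 1 ≤ j)
    (hjn : (j : ℝ) ≤ 3 * (11 / 10) ^ (n - 34)) :
    1 < X n j ∧ 1 + Real.log j / 2 + Real.log (X n j) ≤ X n j ∧
      Real.log j / 2 + Real.log (X n j) ≤ n / 4 := by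
  have hn' : (34 : ℝ) ≤ n := by exact_mod_cast hn
  have hj' : (1 : ℝ) ≤ j := by exact_mod_cast hj
  have hL0 : 0 ≤ Real.log j := Real.log_nonneg hj'
  set m : ℝ := n - 34 with hm
  have hm0 : 0 ≤ m := by rw [hm]; linarith
  have hm8 : 0 ≤ 0.080565 * m := mul_nonneg (by norm_num) hm0
  set M := Real.log 3 + m * Real.log (11 / 10) with hM
  have hLM : Real.log j ≤ M := by
    have h := Real.log_le_log (by positivity) hjn
    rw [Real.log_mul (by norm_num) (by positivity), Real.log_pow, Nat.cast_sub hn] at h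
    rw [hM, hm]
    push_cast at h
    exact h
  have l3 := log_three_le
  have l3' := le_log_three
  have l11 := log_eleven_le
  have l11' := le_log_eleven
  have hMle : M ≤ 1.0987 + 0.09532 * m := by
    rw [hM]; nlinarith
  have hMge : 1.0985 + 0.0953 * m ≤ M := by
    rw [hM]; nlinarith
  have e1 := Real.exp_one_lt_d9
  have e0 := Real.exp_one_gt_d9
  have esq : Real.exp 1 ^ 2 ≤ 7.38906 := by
    calc Real.exp 1 ^ 2 ≤ 2.7182818286 ^ 2 := by gcongr
      _ ≤ _ := by norm_num
  have esq' : 7.389 ≤ Real.exp 1 ^ 2 := by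
    calc (7.389 : ℝ) ≤ 2.7182818283 ^ 2 := by norm_num
      _ ≤ _ := by gcongr
  -- the value at the right end
  set Y := (n : ℝ) * Real.exp (2 * M / n) / (2 * Real.exp 1 ^ 2) with hY
  have hYge : 2.4493 + 0.080565 * m ≤ Y := by
    have h1 : 1 + 2 * M / n ≤ Real.exp (2 * M / n) := by
      have := Real.add_one_le_exp (2 * M / n)
      linarith
    have h2 : (n : ℝ) * (1 + 2 * M / n) = n + 2 * M := by field_simp
    have h3 : (n : ℝ) + 2 * M ≤ n * Real.exp (2 * M / n) := by
      rw [← h2]; exact mul_le_mul_of_nonneg_left h1 (by linarith)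
    rw [hY, le_div_iff₀ (by positivity)]
    have h4 : (2.4493 + 0.080565 * m) * (2 * Real.exp 1 ^ 2)
        ≤ (2.4493 + 0.080565 * m) * (2 * 7.38906) := by gcongr
    have h5 : (n : ℝ) = m + 34 := by rw [hm]; ring
    nlinarith
  have hYle : Y ≤ n / 4 := by
    have h1 : 2 * M / n ≤ 0.2 := by
      rw [div_le_iff₀ (by linarith)]
      have h5 : (n : ℝ) = m + 34 := by rw [hm]; ring
      nlinarith
    have h2 : Real.exp (2 * M / n) ≤ 1.5 := by
      refine (Real.exp_le_exp.2 h1).trans ?_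
      refine (Real.exp_bound' (by norm_num) (by norm_num) (n := 3) (by norm_num)).trans ?_
      norm_num [Finset.sum_range_succ, Nat.factorial]
    rw [hY, div_le_iff₀ (by positivity)]
    nlinarith
  have hYp : 0 < Y := by linarith [hYge, hm8]
  have hlogY : Real.log Y ≤ Y - 1 - M / 2 := by
    -- `y - log y` is increasing for `y ≥ 1`, tangent at 2.4493
    have hmono : ∀ a b : ℝ, 1 ≤ a → a ≤ b → Real.log b - Real.log a ≤ b - a := by
      intro a b ha hab
      have hap : 0 < a := by linarith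
      have hbp : 0 < b := by linarith
      have h1 : Real.log (b / a) ≤ b / a - 1 := Real.log_le_sub_one_of_pos (div_pos hbp hap)
      rw [Real.log_div hbp.ne' hap.ne'] at h1
      have h2 : b / a - 1 ≤ b - a := by
        rw [div_sub_one hap.ne', div_le_iff₀ hap]
        nlinarith
      linarith
    have h1 := hmono (2.4493 + 0.080565 * m) Y (by linarith [hm8])
      hYge
    have h2 : Real.log (2.4493 + 0.080565 * m) ≤ 0.8959 + 0.080565 * m / 2.4493 := by
      have h3 : Real.log ((2.4493 + 0.080565 * m) / 2.4493)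
          ≤ (2.4493 + 0.080565 * m) / 2.4493 - 1 :=
        Real.log_le_sub_one_of_pos (div_pos (by linarith) (by norm_num))
      rw [Real.log_div (ne_of_gt (by linarith)) (by norm_num)] at h3
      have h4 : (2.4493 + 0.080565 * m) / 2.4493 - 1 = 0.080565 * m / 2.4493 := by
        field_simp; ring
      have h5 := log_const_le
      linarith
    have h6 : 0.8959 + 0.080565 * m / 2.4493 ≤ 2.4493 + 0.080565 * m - 1 - M / 2 := by
      have : 0.080565 * m / 2.4493 ≤ 0.0328932 * m := by
        rw [div_le_iff₀ (by norm_num)]; nlinarith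
      nlinarith
    linarith
  -- transfer from `M` to `log j`
  have hX : X n j = Y * Real.exp (-(2 * (M - Real.log j) / n)) := by
    rw [log_X (by omega) hj, hY]
    have : Real.exp (2 * Real.log j / n)
        = Real.exp (2 * M / n) * Real.exp (-(2 * (M - Real.log j) / n)) := by
      rw [← Real.exp_add]; congr 1; ring
    rw [this]; ring
  set δ := M - Real.log j with hδ
  have hδ0 : 0 ≤ δ := by rw [hδ]; linarith
  have hXge : Y * (1 - 2 * δ / n) ≤ X n j := by
    rw [hX]
    refine mul_le_mul_of_nonneg_left ?_ hYp.le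
    have := Real.add_one_le_exp (-(2 * δ / n))
    linarith
  have hlogX : Real.log (X n j) = Real.log Y - 2 * δ / n := by
    rw [hX, Real.log_mul hYp.ne' (Real.exp_pos _).ne', Real.log_exp]; ring
  have hmain : 1 + Real.log j / 2 + Real.log (X n j) ≤ X n j := by
    rw [hlogX]
    have h1 : Real.log j = M - δ := by rw [hδ]; ring
    rw [h1]
    have h2 : Y * (2 * δ / n) ≤ δ / 2 := by
      have : Y * (2 * δ / n) = (Y / n) * (2 * δ) := by ring
      rw [this]
      have h3 : Y / n ≤ 1 / 4 := by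
        rw [div_le_iff₀ (by linarith)]; linarith
      nlinarith
    have h4 : 0 ≤ 2 * δ / n := by positivity
    nlinarith
  have hXpos : 0 < X n j := by rw [hX]; positivity
  have hXle : X n j ≤ n / 4 := by
    refine le_trans ?_ hYle
    rw [hX]
    refine mul_le_of_le_one_right hYp.le ?_
    rw [Real.exp_le_one_iff]
    have : 0 ≤ 2 * δ / n := by positivity
    linarith
  have hX1 : 1 < X n j := by
    have h1 : (n : ℝ) / (2 * Real.exp 1 ^ 2) ≤ X n j := by
      rw [log_X (by omega) hj]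
      gcongr
      refine le_mul_of_one_le_right (by linarith) ?_
      rw [Real.one_le_exp_iff]; positivity
    refine lt_of_lt_of_le ?_ h1
    rw [lt_div_iff₀ (by positivity)]
    linarith
  refine ⟨hX1, hmain, ?_⟩
  linarith

/-- **Pólya's conjecture for Neumann eigenvalues in high dimension, low index.** -/
theorem result {n : ℕ} (hn : 2 ≤ n) (Ω : Set (E n)) (hΩ : IsOpen Ω) (hconn : IsConnected Ω)
    (hb : Bornology.IsBounded Ω) (μ : ℕ → ℝ) (hμ : IsNeumannSpectrum Ω μ) (j : ℕ) (hj : 1 ≤ j) :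
    ((1 < X n j ∧ 1 + Real.log j / 2 + Real.log (X n j) ≤ X n j ∧
      Real.log j / 2 + Real.log (X n j) ≤ n / 4) → μ j ≤ weyl Ω j) ∧
    ((34 ≤ n ∧ (j : ℝ) ≤ 3 * (11 / 10) ^ (n - 34)) → μ j ≤ weyl Ω j) := by
  have h : (1 < X n j ∧ 1 + Real.log j / 2 + Real.log (X n j) ≤ X n j ∧
      Real.log j / 2 + Real.log (X n j) ≤ n / 4) → μ j ≤ weyl Ω j := fun h =>
    criterion (by omega) Ω hΩ hconn.nonempty hb μ hμ j hj h.1 h.2.1 h.2.2
  exact ⟨h, fun h' => h (numerics h'.1 hj h'.2)⟩

end Pool.Agent.Results.MP_022645_an.HighDimension
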