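import Pool.Agent.PN.Main

set_option autoImplicit false

open MeasureTheory Filter Topology Set
open Pool.Agent.H51.Neumann Pool.Agent.PN
open scoped RealInnerProductSpace ContDiff

namespace Pool.Agent.Results.MP_022645_an.KrogerImproved

/-- The Weyl term `W_j(Ω) = (2π)² (j/(ω_n |Ω|))^{2/n}`. -/
noncomputable def weyl {n : ℕ} (Ω : Set (E n)) (j : ℕ) : ℝ :=
  (2 * Real.pi) ^ 2 *
    ((j : ℝ) / (volume.real (Metric.ball (0 : E n) 1) * volume.real Ω)) ^ (2 / (n : ℝ))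

theorem weyl_nonneg {n : ℕ} (Ω : Set (E n)) (j : ℕ) : 0 ≤ weyl Ω j := by
  unfold weyl
  positivity

theorem main' {n : ℕ} (hn : 2 ≤ n) (Ω : Set (E n)) (hΩ : IsOpen Ω) (hne : Ω.Nonempty)
    (hb : Bornology.IsBounded Ω) (μ : ℕ → ℝ) (hμ : IsNeumannSpectrum Ω μ) (j : ℕ) (hj : 1 ≤ j)
    {κ s τ : ℝ} (hOD : OD κ s τ) (hs : 0 < s) (hκ : 0 < κ) (hτ : 0 ≤ τ) :
    μ j ≤ (1 + τ) * (κ * Bc n τ / Ac n τ ^ 2) ^ (2 / (n : ℝ)) * weyl Ω j := by
  obtain ⟨k, rfl⟩ : ∃ k, n = k + 1 := ⟨n - 1, by omega⟩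
  obtain ⟨u, g, hug, hon, hcomp, heig⟩ := hμ.exists_basis
  have hfin : volume Ω ≠ ⊤ := hb.measure_lt_top.ne
  have hV : 0 < volume.real Ω := by
    rw [Measure.real, ENNReal.toReal_pos_iff]
    exact ⟨hΩ.measure_pos volume hne, hb.measure_lt_top⟩
  exact main hΩ.measurableSet hfin hV ⟨hμ.mono, hug, hon, hcomp, heig⟩ hj hOD hs hκ hτ

/-- The constant: `C 2 = 1.355`, `C 3 = 1.4702`, `C n = 50 (n+2) / (23 (n+4))` for `n ≥ 4`. -/
noncomputable def C (n : ℕ) : ℝ :=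
  if n = 2 then 1.355 else if n = 3 then 1.4702 else 50 * (n + 2) / (23 * (n + 4))

/-- **Improvement of Kröger's bound towards Pólya's conjecture for Neumann eigenvalues.** -/
theorem result {n : ℕ} (hn : 2 ≤ n) (Ω : Set (E n)) (hΩ : IsOpen Ω) (hconn : IsConnected Ω)
    (hb : Bornology.IsBounded Ω) (μ : ℕ → ℝ) (hμ : IsNeumannSpectrum Ω μ) (j : ℕ) (hj : 1 ≤ j) :
    μ j ≤ C n ^ (2 / (n : ℝ)) * weyl Ω j := by
  by_cases h2 : n = 2
  · subst h2
    have h := main' hn Ω hΩ hconn.nonempty hb μ hμ j hj OD_one (by norm_num) (by norm_num)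
      (by norm_num)
    refine h.trans (mul_le_mul_of_nonneg_right ?_ (weyl_nonneg Ω j))
    rw [Bc, Ac, C, if_pos rfl]
    norm_num
  by_cases h3 : n = 3
  · subst h3
    have h := main' hn Ω hΩ hconn.nonempty hb μ hμ j hj OD_one (by norm_num) (by norm_num)
      (by norm_num)
    refine h.trans (mul_le_mul_of_nonneg_right ?_ (weyl_nonneg Ω j))
    have e : (1 * Bc 3 (1 / 10) / Ac 3 (1 / 10) ^ 2 : ℝ) = 446 / 350 := by
      rw [Bc, Ac]; norm_num
    rw [e, C, if_neg (by norm_num), if_pos rfl]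
    push_cast
    have h1 : (1 + 1 / 10 : ℝ) = ((11 / 10 : ℝ) ^ (3 / 2 : ℝ)) ^ (2 / 3 : ℝ) := by
      rw [← Real.rpow_mul (by norm_num)]; norm_num
    rw [h1, ← Real.mul_rpow (by positivity) (by norm_num)]
    refine Real.rpow_le_rpow (by positivity) ?_ (by norm_num)
    have h4 : (11 / 10 : ℝ) ^ (3 / 2 : ℝ) = Real.sqrt ((11 / 10) ^ 3) := by
      rw [Real.sqrt_eq_rpow, ← Real.rpow_natCast, ← Real.rpow_mul (by norm_num)]
      norm_num
    rw [h4]
    have h5 : Real.sqrt ((11 / 10) ^ 3) ≤ 1.15374 := by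
      rw [Real.sqrt_le_left (by norm_num)]; norm_num
    nlinarith
  · have h := main' hn Ω hΩ hconn.nonempty hb μ hμ j hj OD_zero (by norm_num) (by norm_num)
      le_rfl
    have e : (25 / 23 : ℝ) * Bc n 0 / Ac n 0 ^ 2 = C n := by
      rw [Bc, Ac, C, if_neg h2, if_neg h3]
      have h2 : (n : ℝ) + 2 ≠ 0 := by positivity
      have h4 : (n : ℝ) + 4 ≠ 0 := by positivity
      field_simp
      ring
    rw [e, add_zero, one_mul] at h
    exact h

end Pool.Agent.Results.MP_022645_an.KrogerImproved
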