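import Pool.Agent.H85.Spectral.Polya

/-!
# Pólya's Neumann inequality for domains whose copies fill a spectral set

If finitely many congruent copies of `Ω` fill a spectral set `D` (in the sense of Fuglede), then
`μ_j(Ω) ≤ (2π)² (j / (ω_n |Ω|))^{2/n}` for all `j`. In particular this holds for spectral domains.
-/

set_option autoImplicit false

open MeasureTheory
open Pool.Agent.H51.Neumann Pool.Agent.H85.Spectral
open scoped ComplexConjugate

namespace Pool.Agent.Results.MP_022645_an.SpectralPacking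

/-- **Pólya's conjecture for Neumann eigenvalues of domains packing a spectral set.** -/
theorem result {n : ℕ} (hn : 1 ≤ n) (Ω : Set (E n)) (hΩ : IsOpen Ω) (hne : Ω.Nonempty)
    (hfin : volume Ω ≠ ⊤) (μ : ℕ → ℝ) (hμ : IsNeumannSpectrum Ω μ) :
    (∀ (D Λ : Set (E n)), IsSpectral D Λ → ∀ (m : ℕ), 1 ≤ m →
      ∀ (A : Fin m → (E n ≃ₗᵢ[ℝ] E n)) (b : Fin m → E n),
      Pairwise (Function.onFun Disjoint fun k => (fun x => A k x + b k) '' Ω) →
      D =ᵐ[volume] ⋃ k, (fun x => A k x + b k) '' Ω →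
      ∀ j : ℕ, μ j ≤ weyl Ω j) ∧
    (∀ Λ : Set (E n), IsSpectral Ω Λ → ∀ j : ℕ, μ j ≤ weyl Ω j) := by
  have hV : 0 < volume.real Ω := by
    rw [Measure.real, ENNReal.toReal_pos_iff]
    exact ⟨hΩ.measure_pos volume hne, lt_top_iff_ne_top.2 hfin⟩
  refine ⟨fun D Λ hD m hm A b hdisj hcov j =>
    polya_of_spectral hn hΩ hfin hV hμ hD hm A b hdisj hcov j, fun Λ hD j => ?_⟩
  refine polya_of_spectral hn hΩ hfin hV hμ hD one_pos (fun _ => LinearIsometryEquiv.refl ℝ (E n))
    (fun _ => 0) ?_ ?_ j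
  · intro a b hab
    exact absurd (Subsingleton.elim a b) hab
  · simp only [LinearIsometryEquiv.coe_refl, id_eq, add_zero, Set.image_id', Set.iUnion_const]
    exact Filter.EventuallyEq.refl _ _

end Pool.Agent.Results.MP_022645_an.SpectralPacking
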